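import Pool.Agent.H61.AR.Targets
import Pool.Agent.H60.CM.Basic

/-!
# Row LB2 of arq_modules: Stokes' formula near a boundary point
-/

set_option autoImplicit false

open Set Function MeasureTheory Filter Topology
open scoped Manifold ContDiff Matrix
open Pool.Agent.H61.AR Pool.Agent.H60.CM

namespace Pool.Agent.H46.AR

theorem lb_b0 (t : ℝ) : bpt t 0 = 0 := by
  unfold bpt ee
  simp

theorem lb_b1 (t : ℝ) : bpt t 1 = t := by
  unfold bpt ee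
  simp

theorem lb_mem {a t : ℝ} (ha : 0 < a) (ht : t ∈ Ioo (-a) a) : bpt t ∈ Qb a := by
  refine ⟨?_, ?_, ?_⟩
  · rw [lb_b0]
  · rw [lb_b0]; exact ha
  · rw [lb_b1]; exact abs_lt.2 ht

theorem lb_eq {y : E2} (h : y 0 = 0) : y = bpt (y 1) := by
  ext i
  fin_cases i
  · show y 0 = bpt (y 1) 0
    rw [lb_b0, h]
  · show y 1 = bpt (y 1) 1
    rw [lb_b1]

theorem lb_deriv (t : ℝ) : HasDerivAt bpt (ee 1) t := by
  have h := (hasDerivAt_id t).smul_const (ee 1)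
  rw [one_smul] at h
  exact h

theorem lb_nhds {a : ℝ} {y : E2} (hy : y ∈ Qb a) : Qb a ∈ 𝓝[Hp] y := by
  have h1 : IsOpen {z : E2 | z 0 < a ∧ |z 1| < a} := by
    have c0 : Continuous (fun z : E2 => z 0) := by fun_prop
    have c1 : Continuous (fun z : E2 => z 1) := by fun_prop
    exact IsOpen.inter (isOpen_lt c0 continuous_const) (isOpen_lt c1.abs continuous_const)
  have h2 : {z : E2 | z 0 < a ∧ |z 1| < a} ∩ Hp ⊆ Qb a := fun z hz => ⟨hz.2, hz.1.1, hz.1.2⟩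
  refine mem_of_superset ?_ h2
  exact inter_mem (mem_nhdsWithin_of_mem_nhds (h1.mem_nhds ⟨hy.2.1, hy.2.2⟩))
    self_mem_nhdsWithin

theorem pf_LB2 (h1 : T_LB1) (h2 : T_LST) (h3 : T_CHV) (h4 : T_CPB) : T_LB2 := by
  intro D γ hγ a ψ hψ hpos
  have ha := hψ.pos
  have h0 : (0 : E2) ∈ Qb a := by
    refine ⟨le_rfl, ?_, ?_⟩
    · exact ha
    · show |(0 : ℝ)| < a
      rw [abs_zero]; exact ha
  obtain ⟨θ₀, hθ₀⟩ := hγ.sur (ψ 0) (hψ.bd 0 h0 rfl)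
  have hx0 : D.x (ψ 0) = cpt D.r θ₀ := by rw [← hθ₀, hγ.eq]
  have hbd : ∀ t ∈ Ioo (-a) a, ψ (bpt t) ∈ D.bd := fun t ht =>
    hψ.bd _ (lb_mem ha ht) (lb_b0 t)
  have hX1 : ContDiffOn ℝ ∞ (fun t => D.x (ψ (bpt t))) (Ioo (-a) a) := by
    have e1 := hψ.smooth V3 D.x D.smx
    have e2 : ContDiff ℝ ∞ bpt := by
      unfold bpt
      fun_prop
    exact e1.comp e2.contDiffOn (fun t ht => lb_mem ha ht)
  have hX2 : ∀ t ∈ Ioo (-a) a, D.x (ψ (bpt t)) ∈ circ D.r ∧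
      0 < D.x (ψ (bpt t)) ⬝ᵥ cpt D.r θ₀ := by
    intro t ht
    refine ⟨D.cmc.circle.mapsTo (hbd t ht), ?_⟩
    rw [← hx0]
    exact hpos _ (lb_mem ha ht)
  have hX3 : ∀ t ∈ Ioo (-a) a, deriv (fun t => D.x (ψ (bpt t))) t ≠ 0 := by
    intro t ht
    have hm := lb_mem ha ht
    have e1 : DifferentiableWithinAt ℝ (D.x ∘ ψ) (Qb a) (bpt t) :=
      ((hψ.smooth V3 D.x D.smx).differentiableOn (by simp)) _ hm
    have e2 : DifferentiableWithinAt ℝ (D.x ∘ ψ) Hp (bpt t) :=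
      e1.mono_of_mem_nhdsWithin (lb_nhds hm)
    have e3 := e2.hasFDerivWithinAt.comp_hasDerivAt t (lb_deriv t)
      (Eventually.of_forall fun s => by
        show 0 ≤ bpt s 0
        rw [lb_b0])
    have e4 : deriv (fun t => D.x (ψ (bpt t))) t = pw (D.x ∘ ψ) (bpt t) 1 := e3.deriv
    rw [e4]
    intro hc
    apply hψ.imm _ hm
    rw [hc, map_zero]
  obtain ⟨k, hk, hchv⟩ := h3 D.r a θ₀ (fun t => D.x (ψ (bpt t))) D.cmc.r_pos ha hX1 hX2 hX3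
  obtain ⟨κ, hκ, hlb⟩ := h1 D a ψ hψ
  refine ⟨-(κ * k), ?_, ?_⟩
  · rcases hk with hk | hk <;> rcases hκ with hκ | hκ <;> rw [hk, hκ] <;> norm_num
  intro f B hf hsup hB
  have hb : D.Sm (fun q => B (D.x q)) := Dat.Sm.comp_left D D.smx hB
  obtain ⟨a', ha'0, ha'a, hz⟩ := h4 D a ψ hψ f hsup
  have e1 := hlb f (fun q => B (D.x q)) hf hb hsup
  have e2 := h2 a a' (f ∘ ψ) ((fun q => B (D.x q)) ∘ ψ) ha'0 ha'a (hψ.smooth ℝ f hf)
    (hψ.smooth ℝ _ hb) hz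
  have e3 := hchv (fun θ => f (γ θ)) (fun t => f (ψ (bpt t))) B
    ((Dat.Sm.cont D hf).comp hγ.cont) (fun θ => by
      show f (γ (θ + 2 * Real.pi)) = f (γ θ)
      rw [hγ.per]) hB
    (by
      intro t ht θ hθ
      have e4 : D.x (ψ (bpt t)) = D.x (γ θ) := by rw [hγ.eq]; exact hθ
      have e5 : ψ (bpt t) = γ θ := D.cmc.circle.injOn (hbd t ht) (hγ.mem θ) e4
      show f (ψ (bpt t)) = f (γ θ)
      rw [e5])
    (by
      intro θ hθ
      by_contra hc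
      have e4 : γ θ ∈ ψ '' Qb a := hsup (subset_tsupport f hc)
      obtain ⟨y, hy, hyθ⟩ := e4
      have e5 : y 0 = 0 := by
        by_contra hn
        have hyi : y ∈ Qi a := ⟨lt_of_le_of_ne hy.1 (Ne.symm hn), hy.2.1, hy.2.2⟩
        have e6 : ψ y ∈ D.int := hψ.int.int ⟨y, hyi, rfl⟩
        rw [hyθ] at e6
        exact (D.not_int.2 (hγ.mem θ)) e6
      have e6 := lb_eq e5
      refine hθ (y 1) (abs_lt.1 hy.2.2) ?_
      show D.x (ψ (bpt (y 1))) = cpt D.r θ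
      rw [← e6, hyθ, hγ.eq])
  rw [e1, e2]
  have e4 : ∫ t in (-a)..a, (f ∘ ψ) (bpt t) *
      deriv (fun τ => ((fun q => B (D.x q)) ∘ ψ) (bpt τ)) t =
      ∫ t in (-a)..a, f (ψ (bpt t)) * deriv (fun τ => B (D.x (ψ (bpt τ)))) t := rfl
  rw [e4, e3]
  ring

end Pool.Agent.H46.AR
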